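import Mathlib
import Pool.Graph.R_seed8.TH115.GD.Defs
import Pool.Graph.R_seed8.TH115.GD.Defs2
import Pool.Agent.Helper55.PR.Fin2

/-!
# The Tate conjecture at 2 for almost all quadratic twists of positive rank

Let `k` be a number field, `k'` an algebraic closure, `K = k(t)`, `F = k'(t)`, and let

`E : y² = f(x)`, `f = x (x² + a x + b)`, `a`, `b` polynomials over `k`,

be an elliptic curve over `K` with a rational point of order two, such that `b`, `a² - 4 b` and
`b (a² - 4 b)` are not squares (that is, `E` and the 2-isogenous curve have no further rational points of
order two, and `E[2]` and `E'[2]` are given by different quadratic extensions). Apart from this `E` is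
arbitrary.

The quadratic twists `D y² = f(x)` of `E` with a rational point which is not 2-torsion are those with
`D = f(r)` up to squares, `r ∈ K`. For `r = G / M` the twist by `f(r)` is the twist by
`D = G M (G² + a G M + b M²)`. It is an elliptic surface over the projective line with a section which is
not torsion; it is geometrically simply connected, and its geometric genus is not bounded.

Fix degrees `n₁, ..., n_u ≥ 1` and `l₀`. We take `G = D_{l₀}`, and for `M` the product of the other `D_l`, where
`D_l`, `deg D_l ≤ n_l`, runs through the polynomials whose coefficients are integers of `k` with
coordinates between `-H` and `H`. The degree `N = n_{l₀} ≥ 3` is larger than the sum `s` of the other `n_l`: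
`deg a + s + 1 < N`, `deg b + 2 s + 2 < 2 N`.

Theorem. For all the `D_l`, with the exception of a proportion which tends to zero if `H` tends to
infinity, the following holds for all the polynomials `h` of odd degree such that the prime divisors of
`b (a² - 4 b)` remain prime after `t ↦ h(t)` (a condition on `E` and `h`, not on `r`; for example `h = t`), and
such that `h` is monic with coefficients integers of `k` (or, for the other `h`, the prime divisors of `D`
remain prime after `t ↦ h(t)`). Let `W` be the base change by `h` of the quadratic twist of `E` by
`D = G M (G² + a G M + b M²)`. Then

* `W(K)` has a point of infinite order, and the space of the 2-adic Selmer classes over `F` which are fixed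
  by the Galois group of `k` is generated by one element (`GeneratedBy k' W 1`). So the rank of `W(K)` is
  exactly one, and for the elliptic surface `X` over the projective line with this generic fibre the map
  `Pic(X) ⊗ ℚ₂ → H²(X ⊗ k', ℚ₂(1))^G` is surjective: the Tate conjecture for divisors at the prime 2;
* the integral version `TateAtTwo` holds, if `a² - 4 b` is not the product of a nonsquare constant and a
  square: every invariant class in `T₂ Sel` comes from `W(K)`.

So for `100%` of the `r` the rank of the twist by `f(r)` is as small as possible, and it remains the same
after all the monic integral substitutions `h` of odd degree at the same time, for which `E` does not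
change in the above sense. (The theorem of Katz on the monodromy of families of twists does not apply to
the twists by the values `f(r)`. Rank one results for single surfaces and for families with a descent by
an isogeny whose Selmer groups are small are in this library; here there is no condition on the
descent over `k(t)` for `E`.)

Proof. Let `π = G` and `ϖ = Q = G² + a G M + b M²`. For almost all the `D_l` these are primes which divide
`D` exactly once. As in `MP_89bcae_ag.EveryCurveAlmostAllTwists` an invariant class is given by a cocycle
`C` on the Galois group of `K`, which vanishes on the decomposition group at `π`. Its class in the group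
of order two `W[2] / (0, 0)` is trivial, as `a² - 4 b` and the other divisors are independent modulo `π`; so
`C` has values in `(0, 0)` modulo 2 and is given there by a product `u S` of a constant and a divisor of
`b (a² - 4 b) D` which is a square modulo `π`. Modulo `π` there is exactly one relation: `Q = b M²`, so that
`b Q` is a square; and this is the class of the point with `x = b M² Q`. It is to be shown that after
subtraction of a multiple of the class of the point the cocycle is divisible by two, and that this can
be iterated (`Pool.Agent.Helper55.PR.Core`, `Step2`, `Crit`); here the place `ϖ` is used, where `b` is not a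
square: the cocycle of the point does not vanish on the decomposition group at `ϖ` up to a coboundary
of elements of order two, so that it is not divisible by 2 modulo torsion.

For the densities see `Pool.Agent.Helper55.PR.HG`, ..., `DensQ`: by the density transfer
`Pool.Agent.W275.UB` it is enough that the generic value `Q` is irreducible over the field of rational
functions in all the coefficients, and that `b` is not a square modulo `Q`. The first is shown for
`M = 1`, `G = z + tᴺ`, with `z` a variable: then `Q` is a quadratic polynomial in `z` with the discriminant
`a² - 4 b`. For the second, the field of all the rational functions in the coefficients is embedded in the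
field of rational functions over `k(t, √(a² - 4 b))` in all the coefficients but one, where this coefficient
is such that `t` is a root of `Q`; there `b(t)` is not a square. For the substitutions `h` see
`Pool.Agent.Helper55.PR.Star2`: if `f` is irreducible and primitive at a prime where the leading
coefficient has the valuation two, and `h` is monic integral of odd degree, then `f ∘ h` is irreducible.
-/

namespace Pool.Agent.Results.MP_1bad5e_ag.AlmostAllTwistsWithSection

open Polynomial NumberField Pool.Agent.TH115.GD Pool.Agent.R939.EI Pool.Agent.Helper55.PR

/-- For `100%` of the `D_l`, `OneClass k' K F a b G M` with `G = D_{l₀}` and `M` the product of the other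
`D_l`: the twist of `y² = x (x² + a x + b)` by `f(G / M)` and its base changes have a point of infinite
order, and it generates the invariant 2-adic Selmer classes up to torsion. -/
theorem result {k k' K F : Type} [Field k] [NumberField k] [Field k'] [Algebra k k'] [Field K]
    [Algebra k[X] K] [Field F] [Algebra k'[X] F] [IsFractionRing k'[X] F] [Algebra K F]
    (hT : IsTower k k' K F) {J : Type} [Fintype J] (B : Module.Basis J ℤ (𝓞 k)) {a b : k[X]}
    (hb : ¬ IsSquare b) (hd : ¬ IsSquare (a ^ 2 - 4 * b)) (hbd : ¬ IsSquare (b * (a ^ 2 - 4 * b)))
    {u : ℕ} (n : Fin u → ℕ) (hn : ∀ l, 1 ≤ n l) (l0 : Fin u) (h3 : 3 ≤ n l0)
    (ha : a.natDegree + (∑ l ∈ Finset.univ.erase l0, n l) + 1 < n l0)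
    (hb' : b.natDegree + 2 * (∑ l ∈ Finset.univ.erase l0, n l) + 2 < 2 * n l0)
    {η : ℝ} (hη : 0 < η) :
    ∃ H0 : ℕ, ∀ H : ℕ, H0 ≤ H →
      (({x : (l : Fin u) → Fin (n l + 1) → 𝓞 k | (∀ l j t, |B.repr (x l j) t| ≤ (H : ℤ)) ∧
        ¬ OneClass k' K F a b (polA fun j => algebraMap (𝓞 k) k (x l0 j))
          (∏ l ∈ Finset.univ.erase l0, polA fun j => algebraMap (𝓞 k) k (x l j))}.ncard : ℕ) : ℝ) ≤
        η * (2 * H + 1) ^ (Fintype.card J * ∑ l, (n l + 1)) :=
  sec_twists hT B hb hd hbd hn h3 ha hb' hη

end Pool.Agent.Results.MP_1bad5e_ag.AlmostAllTwistsWithSection
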